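import Pool.Agent.Y742.HC.Stm0

/-! HC-HYP: finitely generated fields of characteristic zero are function fields of
hypersurfaces. -/

set_option autoImplicit false

namespace Pool.Agent.Y849.HC

open MvPolynomial

/-- The core: adjoining an algebraic element to a purely transcendental field. -/
theorem core (k K : Type) [Field k] [Field K] [Algebra k K] (n : ℕ) (y : Fin n → K)
    (hy : AlgebraicIndependent k y) (z : K)
    (hz : IsAlgebraic (Algebra.adjoin k (Set.range y)) z) :
    ∃ (r : MvPolynomial (Fin n) k) (F : MvPolynomial (Fin (n + 1)) k), aeval y r ≠ 0 ∧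
      Irreducible F ∧ ∀ P : MvPolynomial (Fin (n + 1)) k,
        aeval (Fin.cons (aeval y r * z) y : Fin (n + 1) → K) P = 0 ↔ F ∣ P := by
  letI : Algebra (MvPolynomial (Fin n) k) K :=
    (aeval y : MvPolynomial (Fin n) k →ₐ[k] K).toRingHom.toAlgebra
  have halg : ∀ p : MvPolynomial (Fin n) k,
      algebraMap (MvPolynomial (Fin n) k) K p = aeval y p := fun p => rfl
  have hinj : Function.Injective (algebraMap (MvPolynomial (Fin n) k) K) := hy
  haveI : FaithfulSMul (MvPolynomial (Fin n) k) K :=
    (faithfulSMul_iff_algebraMap_injective _ _).mpr hinj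
  haveI : Module.IsTorsionFree (MvPolynomial (Fin n) k) K := inferInstance
  have hz' : IsAlgebraic (MvPolynomial (Fin n) k) z := by
    refine IsAlgebraic.of_ringHom_of_comp_eq (S := Algebra.adjoin k (Set.range y)) (B := K)
      (hy.aevalEquiv : MvPolynomial (Fin n) k →+* Algebra.adjoin k (Set.range y))
      (RingHom.id K) hz hy.aevalEquiv.surjective Function.injective_id ?_
    ext p
    · simp [halg]
    · simp [halg]
  obtain ⟨r, hr0, hr⟩ := hz'.exists_integral_multiple
  have hrz : r • z = aeval y r * z := by rw [Algebra.smul_def, halg]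
  rw [hrz] at hr
  set w : K := aeval y r * z with hw
  have haev : ∀ P : MvPolynomial (Fin (n + 1)) k,
      aeval (Fin.cons w y : Fin (n + 1) → K) P = Polynomial.aeval w (finSuccEquiv k n P) := by
    intro P
    induction P using MvPolynomial.induction_on with
    | C a =>
      rw [show (C a : MvPolynomial (Fin (n + 1)) k) = algebraMap k _ a from rfl]
      simp only [AlgHom.commutes, AlgEquiv.commutes]
      rw [Polynomial.algebraMap_apply, MvPolynomial.algebraMap_eq, Polynomial.aeval_C, halg,
        MvPolynomial.aeval_C]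
    | add p q hp hq => simp only [map_add, hp, hq]
    | mul_X p i hp =>
      rw [map_mul, map_mul, map_mul, hp]
      congr 1
      refine Fin.cases ?_ (fun j => ?_) i
      · rw [finSuccEquiv_X_zero, Polynomial.aeval_X, aeval_X, Fin.cons_zero]
      · rw [finSuccEquiv_X_succ, Polynomial.aeval_C, halg, aeval_X, aeval_X, Fin.cons_succ]
  refine ⟨r, (finSuccEquiv k n).symm (minpoly (MvPolynomial (Fin n) k) w), ?_, ?_, ?_⟩
  · intro h0
    exact hr0 (hinj (by rw [halg, h0, map_zero]))
  · have h1 := (minpoly.prime_of_isIntegrallyClosed hr).irreducible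
    exact (MulEquiv.irreducible_iff (finSuccEquiv k n).symm).mpr h1
  · intro P
    rw [haev, minpoly.isIntegrallyClosed_dvd_iff hr]
    constructor
    · intro h
      have := map_dvd (finSuccEquiv k n).symm h
      rwa [AlgEquiv.symm_apply_apply] at this
    · intro h
      have := map_dvd (finSuccEquiv k n) h
      rwa [AlgEquiv.apply_symm_apply] at this

/-- HYP. -/
theorem sHyp : Pool.Agent.Y742.HC.SHyp := by
  intro k K _ _ _ _ hS
  obtain ⟨S, hS⟩ := hS
  have hfg : (⊤ : IntermediateField k K).FG := ⟨S, hS⟩
  haveI hess : Algebra.EssFiniteType k K := IntermediateField.fg_top_iff.mp hfg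
  obtain ⟨t, ht⟩ := exists_finset_isTranscendenceBasis k K
  obtain ⟨n, ⟨e⟩⟩ : ∃ n : ℕ, Nonempty (Fin n ≃ t) := ⟨_, ⟨t.equivFin.symm⟩⟩
  have hy : IsTranscendenceBasis k ((fun i : t => (i : K)) ∘ e) := ht.comp_equiv e
  set y : Fin n → K := (fun i : t => (i : K)) ∘ e with hydef
  haveI halgF : Algebra.IsAlgebraic (IntermediateField.adjoin k (Set.range y)) K :=
    hy.isAlgebraic_field
  set F0 := IntermediateField.adjoin k (Set.range y) with hF0
  have htop : IntermediateField.adjoin F0 (S : Set K) = ⊤ := by
    rw [eq_top_iff]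
    intro a _
    have h1 : a ∈ IntermediateField.adjoin k (S : Set K) := hS ▸ IntermediateField.mem_top
    have h2 : IntermediateField.adjoin k (S : Set K) ≤
        (IntermediateField.adjoin F0 (S : Set K)).restrictScalars k :=
      IntermediateField.adjoin_le_iff.mpr (IntermediateField.subset_adjoin F0 (S : Set K))
    exact h2 h1
  haveI hfin : FiniteDimensional F0 K := by
    have h1 : FiniteDimensional F0 (IntermediateField.adjoin F0 (S : Set K)) :=
      IntermediateField.finiteDimensional_adjoin fun x _ => (halgF.isAlgebraic x).isIntegral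
    rw [htop] at h1
    exact IntermediateField.topEquiv.toLinearEquiv.finiteDimensional
  haveI : CharZero F0 := inferInstance
  haveI : Algebra.IsSeparable F0 K := inferInstance
  obtain ⟨z, hz⟩ := Field.exists_primitive_element F0 K
  haveI := hy.isAlgebraic
  obtain ⟨r, F, hr, hF, hP⟩ := core k K n y hy.1 z (Algebra.IsAlgebraic.isAlgebraic z)
  refine ⟨n + 1, F, Fin.cons (aeval y r * z) y, hF, hP, ?_⟩
  set x : Fin (n + 1) → K := Fin.cons (aeval y r * z) y with hx
  set L := IntermediateField.adjoin k (Set.range x) with hL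
  have hxL : ∀ i, x i ∈ L := fun i => IntermediateField.subset_adjoin k _ ⟨i, rfl⟩
  have hyL : Set.range y ⊆ (L : Set K) := by
    rintro _ ⟨i, rfl⟩
    have := hxL i.succ
    rwa [hx, Fin.cons_succ] at this
  have hrL : ∀ q : MvPolynomial (Fin n) k, aeval y q ∈ L := by
    intro q
    have h1 : aeval y q ∈ Algebra.adjoin k (Set.range y) := by
      rw [Algebra.adjoin_range_eq_range_aeval]
      exact ⟨q, rfl⟩
    exact (Algebra.adjoin_le (S := L.toSubalgebra) hyL) h1
  have hzL : z ∈ L := by
    have h0 : aeval y r * z ∈ L := by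
      have := hxL 0
      rwa [hx, Fin.cons_zero] at this
    have h1 : z = (aeval y r)⁻¹ * (aeval y r * z) := by
      field_simp
    rw [h1]
    exact L.mul_mem (L.inv_mem (hrL r)) h0
  have h2 : IntermediateField.adjoin k (Set.range y ∪ {z}) = ⊤ := by
    rw [← IntermediateField.adjoin_adjoin_left, hz, IntermediateField.restrictScalars_top]
  rw [eq_top_iff, ← h2]
  refine IntermediateField.adjoin_le_iff.mpr ?_
  rintro a (ha | ha)
  · exact hyL ha
  · rw [Set.mem_singleton_iff.mp ha]
    exact hzL

end Pool.Agent.Y849.HC
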